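import Pool.Agent.Q92.EA.Crt
import Pool.Agent.Q161.EA.Stm

/-!
# Job EA-FSM: the mean value of the local densities of `α`, over `m`
-/

set_option autoImplicit false

namespace Pool.Agent.Q92.EA

open NumberField IsDedekindDomain Finset
open Pool.Agent.Q51.EL Pool.Agent.Q161.EA
open Pool.Agent.Q161.OD (P1 P2 red rho)

section L

variable {L : Type} [Field L] [NumberField L]

theorem P1_mono {l : ℕ} {T T' : Set (𝓞 L × ℤ)} (h : T ⊆ T') (hT : P1 l T') : P1 l T :=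
  fun p hp => hT p (h hp)

theorem P2_mono {l : ℕ} {T T' : Set (𝓞 L × ℤ)} (h : T ⊆ T') (hT : P2 l T') : P2 l T :=
  ⟨fun p hp q hq => hT.1 p (h hp) q (h hq), fun p hp q hq => hT.2 p (h hp) q (h hq)⟩

end L

theorem fsm : S_COR → S_SAT → S_FSM := by
  intro hCOR hSAT L _ _ hn B hB
  classical
  obtain ⟨C, hC, hcor⟩ := hCOR L hn B hB
  obtain ⟨C1, hC1, hrep⟩ := small_rep L
  have hC1' : 0 < C1 := by linarith
  refine ⟨C * C1 ^ Module.finrank ℚ L, by positivity, ?_⟩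
  intro T hT M P S hM hP hPM hS
  obtain ⟨n, hnn⟩ : ∃ n, n = Module.finrank ℚ L := ⟨_, rfl⟩
  obtain ⟨N, hNd⟩ : ∃ N : ℕ, N = (∏ l ∈ P, l) * ⌈M⌉₊ := ⟨_, rfl⟩
  have hpr : ∀ l ∈ P, l.Prime := fun l hl => (hP l hl).1
  have hPi : 0 < ∏ l ∈ P, l := Finset.prod_pos fun l hl => (hpr l hl).pos
  have hMc : 0 < ⌈M⌉₊ := Nat.ceil_pos.2 (by linarith)
  have hN : 0 < N := by rw [hNd]; exact Nat.mul_pos hPi hMc
  have hN' : (0 : ℝ) < N := by exact_mod_cast hN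
  have hNM : M ≤ N := by
    have h1 : ⌈M⌉₊ ≤ N := by rw [hNd]; exact Nat.le_mul_of_pos_left _ hPi
    exact (Nat.le_ceil M).trans (by exact_mod_cast h1)
  have hd : ∀ l ∈ P, l ∣ N := fun l hl => by
    rw [hNd]
    exact Dvd.dvd.mul_right (Finset.dvd_prod_of_mem _ hl) _
  obtain ⟨rep, hr1, hr2⟩ := hrep N hN
  obtain ⟨T', hT'⟩ : ∃ T' : Set (𝓞 L × ℤ), T' = {p | ∀ l ∈ P, p ∈ Sat l T} := ⟨_, rfl⟩
  have hCN : M ≤ C1 * N := by nlinarith
  have hsat : ∀ l ∈ P, P1 l (Sat l T) ∧ P2 l (Sat l T) ∧ T ⊆ Sat l T ∧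
      ∀ p p' : 𝓞 L × ℤ, red L l p = red L l p' → p ∈ Sat l T → p' ∈ Sat l T := fun l hl =>
    hSAT L l T (hpr l hl) (hT l (hpr l hl) (hP l hl).2).1 (hT l (hpr l hl) (hP l hl).2).2
  have h := hcor T' (C1 * N) M (hM.trans hCN) hM (by
    intro l hl hlB hl2
    have hlP : l ∈ P := hPM l hl hlB (hl2.trans (min_le_right _ _))
    have hsub : T' ⊆ Sat l T := by
      rw [hT']
      exact fun p hp => hp l hlP
    exact ⟨P1_mono hsub (hsat l hlP).1, P2_mono hsub (hsat l hlP).2.1⟩)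
  rw [min_eq_right hCN] at h
  obtain ⟨hfin, hcard⟩ := h
  have hfG : Finite (𝓞 L ⧸ Ideal.span {(N : 𝓞 L)}) := finite_quot hN
  -- the count for one `m`
  have hX : ∀ m : ℤ, (({g : 𝓞 L ⧸ Ideal.span {(N : 𝓞 L)} | (rep g, m) ∈ T'}.ncard : ℕ) : ℝ) =
      (N : ℝ) ^ n * ∏ l ∈ P, (oma T l m : ℝ) / (l : ℝ) ^ n := by
    intro m
    rw [hnn]
    unfold oma
    rw [← crt_count P hpr hN hd (fun l => Ideal.Quotient.mk (Ideal.span {(l : 𝓞 L)}) '' {α : 𝓞 L | (α, m) ∈ Sat l T})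
      rep hr1]
    congr 2
    ext g
    rw [hT']
    simp only [Set.mem_ofPred_eq, Set.mem_image]
    constructor
    · intro h l hl
      exact ⟨rep g, h l hl, rfl⟩
    · intro h l hl
      obtain ⟨α, h1, h2⟩ := h l hl
      refine (hsat l hl).2.2.2 (α, m) (rep g, m) ?_ h1
      unfold red
      rw [h2]
  -- the injection
  have hsum : ∑ m ∈ S, {g : 𝓞 L ⧸ Ideal.span {(N : 𝓞 L)} | (rep g, m) ∈ T'}.ncard ≤
      {p ∈ T' | (∀ σ : L →+* ℂ, ‖σ (p.1 : L)‖ ≤ C1 * N) ∧ |(p.2 : ℝ)| ≤ M}.ncard := by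
    have hXf : ∀ m : ℤ, ({g : 𝓞 L ⧸ Ideal.span {(N : 𝓞 L)} | (rep g, m) ∈ T'}).Finite := fun m => Set.toFinite _
    rw [Set.ncard_eq_toFinset_card _ hfin]
    have e1 : ∑ m ∈ S, {g : 𝓞 L ⧸ Ideal.span {(N : 𝓞 L)} | (rep g, m) ∈ T'}.ncard =
        (S.sigma fun m => (hXf m).toFinset).card := by
      rw [Finset.card_sigma]
      exact Finset.sum_congr rfl fun m _ => Set.ncard_eq_toFinset_card _ (hXf m)
    rw [e1]
    refine Finset.card_le_card_of_injOn (fun q => (rep q.2, q.1)) ?_ ?_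
    · rintro ⟨m, g⟩ hq
      simp only [Finset.coe_sigma, Set.mem_sigma_iff, Finset.mem_coe, Set.Finite.mem_toFinset,
        Set.mem_ofPred_eq] at hq
      simp only [Set.Finite.coe_toFinset, Set.mem_ofPred_eq]
      exact ⟨hq.2, hr2 g, hS m hq.1⟩
    · rintro ⟨m, g⟩ _ ⟨m', g'⟩ _ he
      simp only [Prod.mk.injEq] at he
      obtain ⟨h1, rfl⟩ := he
      have h2 : g = g' := by
        rw [← hr1 g, h1, hr1 g']
      rw [h2]
  have hsum' : (N : ℝ) ^ n * ∑ m ∈ S, ∏ l ∈ P, (oma T l m : ℝ) / (l : ℝ) ^ n ≤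
      (({p ∈ T' | (∀ σ : L →+* ℂ, ‖σ (p.1 : L)‖ ≤ C1 * N) ∧ |(p.2 : ℝ)| ≤ M}.ncard : ℕ) : ℝ) := by
    rw [Finset.mul_sum, Finset.sum_congr rfl fun m _ => (hX m).symm]
    exact_mod_cast hsum
  have hlog : 0 ≤ 1 + Real.log M := by
    have := Real.log_nonneg hM
    linarith
  have h2 := (mul_le_mul_of_nonneg_right hsum' hlog).trans hcard
  rw [← hnn] at h2 ⊢
  have h3 : (N : ℝ) ^ n * ((∑ m ∈ S, ∏ l ∈ P, (oma T l m : ℝ) / (l : ℝ) ^ n) * (1 + Real.log M)) ≤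
      (N : ℝ) ^ n * (C * C1 ^ n * M) := by
    calc _ = (N : ℝ) ^ n * (∑ m ∈ S, ∏ l ∈ P, (oma T l m : ℝ) / (l : ℝ) ^ n) * (1 + Real.log M) := by ring
      _ ≤ C * (C1 * N) ^ n * M := h2
      _ = _ := by rw [mul_pow]; ring
  exact le_of_mul_le_mul_left h3 (by positivity)

end Pool.Agent.Q92.EA
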