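import Mathlib

/-!
# The Chinese remainder theorem count in `𝓞 L`, and small representatives
-/

set_option autoImplicit false

namespace Pool.Agent.Q92.EA

open NumberField Finset

section L

variable {L : Type} [Field L] [NumberField L]

theorem card_quot (N : ℕ) : Nat.card (𝓞 L ⧸ Ideal.span {(N : 𝓞 L)}) = N ^ Module.finrank ℚ L := by
  have h := Ideal.absNorm_span_natCast (S := 𝓞 L) N
  rw [Ideal.absNorm_apply, Submodule.cardQuot_apply, RingOfIntegers.rank] at h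
  exact h

theorem finite_quot {N : ℕ} (hN : 0 < N) : Finite (𝓞 L ⧸ Ideal.span {(N : 𝓞 L)}) := by
  apply Nat.finite_of_card_ne_zero
  rw [card_quot]
  positivity

/-- fibres of surjective homomorphisms -/
theorem ncard_preimage {G H : Type*} [AddGroup G] [AddGroup H] [Finite G] [Finite H] (φ : G →+ H)
    (hφ : Function.Surjective φ) (S : Set H) :
    (φ ⁻¹' S).ncard * Nat.card H = S.ncard * Nat.card G := by
  classical
  have := Fintype.ofFinite G
  have := Fintype.ofFinite H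
  obtain ⟨k, hk⟩ : ∃ k, k = (univ.filter (fun g => φ g = 0)).card := ⟨_, rfl⟩
  have hfib : ∀ h : H, (univ.filter (fun g => φ g = h)).card = k := by
    intro h
    rw [hk]
    exact AddMonoidHom.card_fiber_eq_of_mem_range φ (hφ h) (hφ 0)
  have key : ∀ S : Set H, (φ ⁻¹' S).ncard = S.ncard * k := by
    intro S
    have e1 : φ ⁻¹' S = ((univ.filter (fun g => φ g ∈ S) : Finset G) : Set G) := by
      ext g
      simp
    have e2 : S = ((univ.filter (fun h => h ∈ S) : Finset H) : Set H) := by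
      ext g
      simp
    rw [e1, Set.ncard_coe_finset]
    rw [Finset.card_eq_sum_card_fiberwise (f := φ) (t := univ.filter (fun h => h ∈ S))
      (fun g hg => by simpa using hg)]
    have e3 : ∀ h ∈ univ.filter (fun h => h ∈ S), ((univ.filter (fun g => φ g ∈ S)).filter (fun g => φ g = h)).card = k := by
      intro h hh
      rw [Finset.filter_filter]
      rw [← hfib h]
      congr 1
      ext g
      simp only [mem_filter, mem_univ, true_and] at hh ⊢
      constructor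
      · exact fun h => h.2
      · rintro rfl
        exact ⟨hh, rfl⟩
    rw [Finset.sum_congr rfl e3, Finset.sum_const, smul_eq_mul]
    congr 1
    conv_rhs => rw [e2]
    rw [Set.ncard_coe_finset]
  have h1 := key S
  have h2 := key Set.univ
  rw [Set.preimage_univ, Set.ncard_univ, Set.ncard_univ] at h2
  rw [h1, h2]
  ring

theorem crt_surj (P : Finset ℕ) (hP : ∀ l ∈ P, l.Prime) (r : P → 𝓞 L) :
    ∃ α : 𝓞 L, ∀ l : P, Ideal.Quotient.mk (Ideal.span {((l : ℕ) : 𝓞 L)}) α = Ideal.Quotient.mk _ (r l) := by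
  have hco : Pairwise fun i j : P => IsCoprime (Ideal.span {((i : ℕ) : 𝓞 L)}) (Ideal.span {((j : ℕ) : 𝓞 L)}) := by
    intro i j hij
    rw [Ideal.isCoprime_span_singleton_iff]
    have h1 : Nat.Coprime (i : ℕ) (j : ℕ) := (Nat.coprime_primes (hP i i.2) (hP j j.2)).2
      (fun h => hij (Subtype.ext h))
    have h2 := (Nat.isCoprime_iff_coprime.2 h1).map (Int.castRingHom (𝓞 L))
    simpa using h2
  obtain ⟨x, hx⟩ := Ideal.quotientInfToPiQuotient_surj hco (fun l => Ideal.Quotient.mk _ (r l))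
  obtain ⟨α, rfl⟩ := Ideal.Quotient.mk_surjective x
  exact ⟨α, fun l => congrFun hx l⟩

/-- the number of the classes modulo `N` with prescribed reductions -/
theorem crt_count (P : Finset ℕ) (hP : ∀ l ∈ P, l.Prime) {N : ℕ} (hN : 0 < N) (hd : ∀ l ∈ P, l ∣ N)
    (B : (l : ℕ) → Set (𝓞 L ⧸ Ideal.span {(l : 𝓞 L)}))
    (rep : 𝓞 L ⧸ Ideal.span {(N : 𝓞 L)} → 𝓞 L) (hrep : ∀ g, Ideal.Quotient.mk _ (rep g) = g) :
    (({g : 𝓞 L ⧸ Ideal.span {(N : 𝓞 L)} | ∀ l ∈ P, Ideal.Quotient.mk (Ideal.span {(l : 𝓞 L)}) (rep g) ∈ B l}.ncard : ℕ) : ℝ) =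
      (N : ℝ) ^ Module.finrank ℚ L * ∏ l ∈ P, (((B l).ncard : ℕ) : ℝ) / (l : ℝ) ^ Module.finrank ℚ L := by
  classical
  have hle : ∀ l : P, Ideal.span {(N : 𝓞 L)} ≤ Ideal.span {((l : ℕ) : 𝓞 L)} := by
    intro l
    rw [Ideal.span_singleton_le_span_singleton]
    obtain ⟨c, hc⟩ := hd l l.2
    exact ⟨(c : 𝓞 L), by rw [hc]; push_cast; ring⟩
  have hfG : Finite (𝓞 L ⧸ Ideal.span {(N : 𝓞 L)}) := finite_quot hN
  have hfl : ∀ l : P, Finite (𝓞 L ⧸ Ideal.span {((l : ℕ) : 𝓞 L)}) := fun l => finite_quot (hP l l.2).pos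
  let φ : (𝓞 L ⧸ Ideal.span {(N : 𝓞 L)}) →+* ((l : P) → 𝓞 L ⧸ Ideal.span {((l : ℕ) : 𝓞 L)}) :=
    RingHom.pi fun l => Ideal.Quotient.factor (hle l)
  have hφ : ∀ (α : 𝓞 L) (l : P), φ (Ideal.Quotient.mk _ α) l = Ideal.Quotient.mk _ α := fun α l => rfl
  have hsurj : Function.Surjective φ := by
    intro h
    choose r hr using fun l : P => Ideal.Quotient.mk_surjective (h l)
    obtain ⟨α, hα⟩ := crt_surj P hP r
    refine ⟨Ideal.Quotient.mk _ α, ?_⟩
    funext l
    rw [hφ, hα, hr]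
  have h1 := ncard_preimage φ.toAddMonoidHom hsurj (Set.pi Set.univ fun l : P => B l)
  have h2 : (φ.toAddMonoidHom ⁻¹' (Set.pi Set.univ fun l : P => B l)) =
      {g : 𝓞 L ⧸ Ideal.span {(N : 𝓞 L)} | ∀ l ∈ P, Ideal.Quotient.mk (Ideal.span {(l : 𝓞 L)}) (rep g) ∈ B l} := by
    ext g
    simp only [Set.mem_preimage, Set.mem_pi, Set.mem_univ, true_imp_iff, Set.mem_ofPred_eq]
    have h3 : ∀ l : P, φ g l = Ideal.Quotient.mk _ (rep g) := by
      intro l
      conv_lhs => rw [← hrep g]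
      exact hφ _ l
    constructor
    · intro h l hl
      have := h ⟨l, hl⟩
      change φ g ⟨l, hl⟩ ∈ _ at this
      rw [h3] at this
      exact this
    · intro h l
      change φ g l ∈ _
      rw [h3]
      exact h l l.2
  rw [h2] at h1
  have h4 : (Set.pi Set.univ fun l : P => B l).ncard = ∏ l ∈ P, (B l).ncard := by
    rw [← Nat.card_coe_set_eq, Nat.card_congr (Equiv.Set.univPi _), Nat.card_pi]
    rw [← Finset.prod_coe_sort P]
    refine Finset.prod_congr rfl fun l _ => ?_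
    rw [Nat.card_coe_set_eq]
  have h5 : Nat.card ((l : P) → 𝓞 L ⧸ Ideal.span {((l : ℕ) : 𝓞 L)}) = ∏ l ∈ P, l ^ Module.finrank ℚ L := by
    rw [Nat.card_pi, ← Finset.prod_coe_sort P]
    exact Finset.prod_congr rfl fun l _ => card_quot _
  rw [h4, h5, card_quot] at h1
  have hpos : (0 : ℝ) < ∏ l ∈ P, (l : ℝ) ^ Module.finrank ℚ L :=
    Finset.prod_pos fun l hl => pow_pos (by exact_mod_cast (hP l hl).pos) _
  have h6 := congrArg (fun k : ℕ => (k : ℝ)) h1
  simp only [Nat.cast_mul, Nat.cast_prod, Nat.cast_pow] at h6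
  rw [Finset.prod_div_distrib, ← mul_div_assoc, eq_div_iff hpos.ne', h6]
  ring

/-- small representatives -/
theorem small_rep (L : Type) [Field L] [NumberField L] : ∃ C : ℝ, 1 ≤ C ∧ ∀ N : ℕ, 0 < N →
    ∃ rep : 𝓞 L ⧸ Ideal.span {(N : 𝓞 L)} → 𝓞 L, (∀ g, Ideal.Quotient.mk _ (rep g) = g) ∧
      ∀ g, ∀ σ : L →+* ℂ, ‖σ (rep g : L)‖ ≤ C * N := by
  classical
  let b := RingOfIntegers.basis L
  refine ⟨1 + ∑ σ : L →+* ℂ, ∑ i, ‖σ (b i : L)‖, ?_, ?_⟩
  · have : 0 ≤ ∑ σ : L →+* ℂ, ∑ i, ‖σ (b i : L)‖ :=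
      Finset.sum_nonneg fun _ _ => Finset.sum_nonneg fun _ _ => norm_nonneg _
    linarith
  intro N hN
  have hN' : (0 : ℝ) < N := by exact_mod_cast hN
  have hN0 : (N : ℤ) ≠ 0 := by exact_mod_cast hN.ne'
  have key : ∀ g : 𝓞 L ⧸ Ideal.span {(N : 𝓞 L)}, ∃ α : 𝓞 L, Ideal.Quotient.mk _ α = g ∧
      ∀ σ : L →+* ℂ, ‖σ (α : L)‖ ≤ (1 + ∑ σ : L →+* ℂ, ∑ i, ‖σ (b i : L)‖) * N := by
    intro g
    obtain ⟨a, rfl⟩ := Ideal.Quotient.mk_surjective g
    obtain ⟨c, hc⟩ : ∃ c : _ → ℤ, c = fun i => b.repr a i := ⟨_, rfl⟩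
    have h1 : a = ∑ i, c i • b i := by
      rw [hc]
      exact (b.sum_repr a).symm
    refine ⟨∑ i, (c i % N) • b i, ?_, ?_⟩
    · rw [Ideal.Quotient.eq, Ideal.mem_span_singleton]
      refine ⟨-∑ i, (c i / N) • b i, ?_⟩
      rw [h1, ← Finset.sum_sub_distrib, mul_neg, Finset.mul_sum, ← Finset.sum_neg_distrib]
      refine Finset.sum_congr rfl fun i _ => ?_
      rw [← sub_smul]
      have h2 : c i % N - c i = -(N * (c i / N)) := by
        have := Int.emod_add_mul_ediv (c i) N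
        linarith
      rw [h2]
      simp only [zsmul_eq_mul]
      push_cast
      ring
    · intro σ
      have h3 : ‖σ ((∑ i, (c i % N) • b i : 𝓞 L) : L)‖ ≤ ∑ i, N * ‖σ (b i : L)‖ := by
        obtain ⟨τ, hτ⟩ : ∃ τ : 𝓞 L →+* ℂ, τ = σ.comp (algebraMap (𝓞 L) L) := ⟨_, rfl⟩
        have hτ' : ∀ x : 𝓞 L, σ (x : L) = τ x := fun x => by rw [hτ]; rfl
        simp only [hτ']
        rw [map_sum]
        refine (norm_sum_le _ _).trans (Finset.sum_le_sum fun i _ => ?_)
        rw [map_zsmul, zsmul_eq_mul, norm_mul]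
        refine mul_le_mul_of_nonneg_right ?_ (norm_nonneg _)
        have h4 : 0 ≤ c i % N := Int.emod_nonneg _ hN0
        have h5 : c i % N < N := Int.emod_lt_of_pos _ (by exact_mod_cast hN)
        rw [Complex.norm_intCast, abs_of_nonneg (by exact_mod_cast h4)]
        exact_mod_cast h5.le
      refine h3.trans ?_
      rw [← Finset.mul_sum, mul_comm]
      refine mul_le_mul_of_nonneg_right ?_ hN'.le
      have h6 : ∑ i, ‖σ (b i : L)‖ ≤ ∑ σ : L →+* ℂ, ∑ i, ‖σ (b i : L)‖ :=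
        Finset.single_le_sum (f := fun σ : L →+* ℂ => ∑ i, ‖σ (b i : L)‖)
          (fun _ _ => Finset.sum_nonneg fun _ _ => norm_nonneg _) (Finset.mem_univ σ)
      linarith
  choose rep h1 h2 using key
  exact ⟨rep, h1, h2⟩

end L

end Pool.Agent.Q92.EA
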